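import Mathlib
import Pool.Agent.TH344.TJ.Main2
import Pool.Agent.TH344.TJ.MQ

/-!
# Hyperelliptic Jacobians over all multiquadratic fields

Let `g ≥ 1`, let `a_0, ..., a_(2g)` be distinct integers and let `J` be the Jacobian of the curve
`y² = ∏ (x - a_i)` of genus `g` over `ℚ`. For an `m`-tuple `d` of squarefree integers, independent
modulo squares, let `K_d = ℚ(√d_1, ..., √d_m)`. All the multiquadratic fields of degree `2 ^ m` are of
this form, each for the same number of tuples. Let `R(d)` be the product of the primes dividing one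
of the `d_i`, so that the discriminant of `K_d` is, up to powers of `2` bounded in terms of `m`,
equal to `R(d) ^ (2 ^ (m - 1))`. For a subset `T` of `{1, ..., m}` let `J_T` be the quadratic twist of
`J` by `∏_(i ∈ T) d_i`, i.e. the Jacobian of `y² = ∏ (x - d_T a_i)`, `d_T = ∏_(i ∈ T) d_i`. The product
of the abelian varieties `J_T` over the `2 ^ m` sets `T` is isogenous to the restriction of scalars of
`J` from `K_d` to `ℚ`; so the rank of `J(K_d)` is the sum of the ranks of the `J_T(ℚ)`, and
`corank Ш(J / K_d)[2 ^ ∞]` is the sum of the `corank Ш(J_T)[2 ^ ∞]`.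

For every `k` the mean value of the `k`-th power of the product of the orders of the 2-Selmer groups
of the `J_T` over all `d` with `R(d) ≤ X` is bounded. So the proportion of the fields `K_d` for which
`corank Ш(J / K_d)[2 ^ ∞] ≥ n` (or the rank of `J(K_d)` is at least `n`) is at most `C / 2 ^ (k n)`.

The descent map. Every class of divisors of degree zero on `X : y² = ∏ (x - a_i)` over an infinite
field `K` contains a divisor `D_(u,v) = ∑ (x_j, v (x_j)) - deg u · ∞`, `x_j` the zeros of the monic
polynomial `u`, where `u` divides `∏ (x - a_i) - v²` and `u (a_i) ≠ 0` for all `i` (Mumford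
representation). The map `J(K) / 2 J(K) → (K^* / K^*²)^(2g+1)` which sends this class to the family
of the classes of `(-1) ^ deg u * u (a_i)` is injective, and it is induced by the isomorphism of
`J[2]` with the group of the families of signs with product one, indexed by the `a_i`. So the
2-Selmer group of `J` is the group of the families of classes in `ℚ^* / ℚ^*²`, that are in the image
over `ℝ` and over `ℚ_p` for all primes `p`. The classes of `ℚ^* / ℚ^*²` are represented by
squarefree integers.
-/

namespace Pool.Agent.Results.MP_009fd8_ag.JacobiansMultiquadratic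

open Polynomial Finset

/-- The family of the classes of the integers `d i` in `K^* / K^*²` is in the image of the
Jacobian of `y² = ∏ (x - a i)` over `K`: there are a monic polynomial `u` and a polynomial `v` with
`u ∣ ∏ (x - a i) - v²`, such that `u (a i) ≠ 0` and `(-1) ^ deg u * u (a i) * d i` is a square for
all `i`. -/
def Image (K : Type) [Field K] {n : ℕ} (a d : Fin n → ℤ) : Prop :=
  ∃ u v : K[X], u.Monic ∧ u ∣ (∏ i, (X - C ((a i : ℤ) : K))) - v ^ 2 ∧
    ∀ i, u.eval ((a i : ℤ) : K) ≠ 0 ∧
      IsSquare ((-1) ^ u.natDegree * u.eval ((a i : ℤ) : K) * ((d i : ℤ) : K))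

/-- The image of the Mordell-Weil group `J(ℚ)`, as a set of families of squarefree integers. It has
as many elements as `J(ℚ) / 2 J(ℚ)`. -/
def MW {n : ℕ} (a : Fin n → ℤ) : Set (Fin n → ℤ) := {d | (∀ i, Squarefree (d i)) ∧ Image ℚ a d}

/-- The 2-Selmer group of the Jacobian `J` of `y² = ∏ (x - a i)`, as a set of families of
squarefree integers. The quotient of this group by `MW a` is `Ш(J)[2]`. -/
def Sel2 {n : ℕ} (a : Fin n → ℤ) : Set (Fin n → ℤ) :=
  {d | (∀ i, Squarefree (d i)) ∧ Image ℝ a d ∧ ∀ (p : ℕ) [Fact p.Prime], Image ℚ_[p] a d}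

/-- the Weierstrass points of the quadratic twist by `e` of `y² = ∏ (x - a i)` -/
def twist {n : ℕ} (e : ℤ) (a : Fin n → ℤ) : Fin n → ℤ := fun i => e * a i

/-- the product of the primes dividing one of the integers `d i` -/
def R {m : ℕ} (d : Fin m → ℤ) : ℕ := ∏ p ∈ (∏ i, d i).natAbs.primeFactors, p

open Classical in
/-- the `m`-tuples of squarefree integers, independent modulo squares, with `R d ≤ X` (these
conditions imply `|d i| ≤ X`) -/
noncomputable def Tup (m X : ℕ) : Finset (Fin m → ℤ) :=
  (Fintype.piFinset fun _ : Fin m => Icc (-(X : ℤ)) X).filter fun d =>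
    (∀ i, Squarefree (d i)) ∧ R d ≤ X ∧
      ∀ T : Finset (Fin m), T.Nonempty → ¬ IsSquare (∏ i ∈ T, d i)

/-- the product over all subsets `T` of the orders of the 2-Selmer groups of the `J_T` -/
noncomputable def selmer {n m : ℕ} (a : Fin n → ℤ) (d : Fin m → ℤ) : ℕ :=
  ∏ T : Finset (Fin m), (Sel2 (twist (∏ i ∈ T, d i) a)).ncard

/-- the product over all subsets `T` of the orders of the groups `J_T(ℚ) / 2 J_T(ℚ)` -/
noncomputable def mordellWeil {n m : ℕ} (a : Fin n → ℤ) (d : Fin m → ℤ) : ℕ :=
  ∏ T : Finset (Fin m), (MW (twist (∏ i ∈ T, d i) a)).ncard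

lemma tup_eq (m X : ℕ) : Tup m X = Pool.Agent.TH841.MD.Tup m X := rfl

lemma selmer_cast {n m : ℕ} (a : Fin n → ℤ) (d : Fin m → ℤ) : (selmer a d : ℝ) =
    ∏ T : Finset (Fin m), ((Sel2 (twist (∏ i ∈ T, d i) a)).ncard : ℝ) := by
  unfold selmer
  rw [Nat.cast_prod]

lemma markov {α : Type} {S : Finset α} {F : α → ℝ} {P : α → Prop} [DecidablePred P] {k n : ℕ}
    {B : ℝ} (hF : ∀ t ∈ S, 0 ≤ F t) (h : ∑ t ∈ S, F t ^ k ≤ B)
    (hP : ∀ t ∈ S, P t → (2 : ℝ) ^ n ≤ F t) :
    (2 : ℝ) ^ (k * n) * ((S.filter P).card : ℝ) ≤ B := by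
  refine le_trans ?_ h
  calc (2 : ℝ) ^ (k * n) * ((S.filter P).card : ℝ) = ∑ t ∈ S.filter P, (2 : ℝ) ^ (k * n) := by
        rw [sum_const, nsmul_eq_mul, mul_comm]
    _ ≤ ∑ t ∈ S.filter P, F t ^ k := by
        apply sum_le_sum
        intro t ht
        rw [mem_filter] at ht
        rw [mul_comm k n, pow_mul]
        exact pow_le_pow_left₀ (by positivity) (hP t ht.1 ht.2) k
    _ ≤ _ := sum_le_sum_of_subset_of_nonneg (filter_subset _ _) fun t ht _ =>
        pow_nonneg (hF t ht) k

open Classical in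
/-- **Theorem.** Let `g ≥ 1`, let `a` be a family of `2 g + 1` distinct integers, and `m ≥ 1`. For
every integer `e ≠ 0` the 2-Selmer group `Sel2 (twist e a)` of the twist by `e` of the Jacobian `J`
of `y² = ∏ (x - a i)` is finite and contains the (nonempty) image `MW (twist e a)` of the rational
points modulo `2`. For every `k` there is `C` such that for all `X`, over the `m`-tuples `d` of
squarefree integers, independent modulo squares, with `R d ≤ X`: the sum of the `k`-th powers of the
products over all `T` of the orders of the 2-Selmer groups of the twists `J_T` of `J` by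
`∏_(i ∈ T) d_i` is at most `C` times the number of the tuples. So for every `n` the number of the
tuples for which this product is at least `2 ^ n` is at most `C / 2 ^ (k n)` times the number of all
tuples. The same bound holds for the product of the orders of the `J_T(ℚ) / 2`, and for the quotient
of the two products, which is the product of the orders of the groups `Ш(J_T)[2]`. -/
theorem result (g : ℕ) (hg : 1 ≤ g) (a : Fin (2 * g + 1) → ℤ) (ha : Function.Injective a)
    (m : ℕ) (hm : 1 ≤ m) :
    (∀ e : ℤ, e ≠ 0 → (Sel2 (twist e a)).Finite ∧ MW (twist e a) ⊆ Sel2 (twist e a) ∧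
      (MW (twist e a)).Nonempty) ∧
    ∀ k : ℕ, ∃ C : ℝ, ∀ X : ℕ,
      ∑ d ∈ Tup m X, (selmer a d : ℝ) ^ k ≤ C * (Tup m X).card ∧
      ∀ n : ℕ,
        (2 : ℝ) ^ (k * n) * (((Tup m X).filter (fun d => 2 ^ n ≤ selmer a d)).card : ℝ) ≤
          C * (Tup m X).card ∧
        (2 : ℝ) ^ (k * n) * (((Tup m X).filter (fun d => 2 ^ n ≤ mordellWeil a d)).card : ℝ) ≤
          C * (Tup m X).card ∧
        (2 : ℝ) ^ (k * n) * (((Tup m X).filter (fun d =>
          2 ^ n * mordellWeil a d ≤ selmer a d)).card : ℝ) ≤ C * (Tup m X).card := by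
  have hodd : Odd (2 * g + 1) := ⟨g, rfl⟩
  have hfin : ∀ e : ℤ, e ≠ 0 → (Sel2 (twist e a)).Finite ∧ MW (twist e a) ⊆ Sel2 (twist e a) ∧
      (MW (twist e a)).Nonempty := by
    intro d hd
    have hinj : Function.Injective (twist d a) := by
      intro i j hij
      exact ha (mul_left_cancel₀ hd hij)
    refine ⟨Pool.Agent.TH344.JG.seljf hodd hinj, ?_, ?_⟩
    · rintro e ⟨h1, h2⟩
      exact ⟨h1, Pool.Agent.TH344.JG.LocJ_map (algebraMap ℚ ℝ) h2, fun p _ =>
        Pool.Agent.TH344.JG.LocJ_map (algebraMap ℚ ℚ_[p]) h2⟩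
    · exact ⟨fun _ => 1, fun _ => squarefree_one, Pool.Agent.TH344.JG.LocJ_one ℚ _⟩
  refine ⟨hfin, fun k => ?_⟩
  obtain ⟨C, hC⟩ := Pool.Agent.TH344.TJ.mq_of (Pool.Agent.TH344.TJ.elm hg a ha)
    (Pool.Agent.TH344.TJ.awr hg a ha) m hm k
  refine ⟨C, fun X => ?_⟩
  have h0 : ∑ d ∈ Tup m X, (selmer a d : ℝ) ^ k ≤ C * (Tup m X).card := by
    have h1 := hC X
    rw [← tup_eq] at h1
    refine le_trans (le_of_eq ?_) h1
    apply sum_congr rfl
    intro d _
    rw [selmer_cast]
    rfl
  have hne : ∀ d ∈ Tup m X, ∀ T : Finset (Fin m), ∏ i ∈ T, d i ≠ 0 := by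
    intro d hd T
    unfold Tup at hd
    have h1 := (mem_filter.1 hd).2.1
    exact prod_ne_zero_iff.2 fun i _ => (h1 i).ne_zero
  have key : ∀ n : ℕ, ∀ (P : (Fin m → ℤ) → Prop) [DecidablePred P], (∀ d ∈ Tup m X, P d → 2 ^ n ≤ selmer a d) →
      (2 : ℝ) ^ (k * n) * (((Tup m X).filter P).card : ℝ) ≤ C * (Tup m X).card := by
    intro n P _ hP
    exact markov (P := P) (n := n) (fun t _ => Nat.cast_nonneg _) h0
      (fun t ht h2 => by exact_mod_cast hP t ht h2)
  refine ⟨h0, fun n => ⟨key n _ fun d _ h => h, key n _ fun d hd h => ?_,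
    key n _ fun d hd h => ?_⟩⟩
  · refine h.trans ?_
    unfold mordellWeil selmer
    apply Finset.prod_le_prod'
    intro T _
    obtain ⟨h4, h5, -⟩ := hfin _ (hne d hd T)
    exact Set.ncard_le_ncard h5 h4
  · refine le_trans (Nat.le_mul_of_pos_right _ ?_) h
    unfold mordellWeil
    apply Finset.prod_pos
    intro T _
    obtain ⟨h4, h5, h6⟩ := hfin _ (hne d hd T)
    exact (Set.ncard_pos (h4.subset h5)).2 h6

end Pool.Agent.Results.MP_009fd8_ag.JacobiansMultiquadratic
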